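import Pool.Agent.V1193.PL.A
import Pool.Agent.V1193.PE.R

/-! The logarithmic density in all intervals `[X, Y]` with `Y ≥ X (log X) ^ C`. -/

set_option autoImplicit false

open Finset Filter Topology MeasureTheory

namespace Pool.Agent.V1193.PL

open Pool.Agent.V60.LD
open Pool.Agent.V1193.PE (scale)

open Classical in
/-- runs of blocks -/
lemma runs2 {b : ℕ} (hb : 2 ≤ b) {S : Set ℕ} {c θ : ℝ} (hc : 0 ≤ c) (hθ0 : 0 ≤ θ) (X0 : ℕ)
    (hS : ∀ X Y : ℕ, X0 ≤ Y → (X : ℝ) ^ θ ≤ Y → 2 * Y ≤ X →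
      c * Y ≤ (((Ico X (X + Y)).filter (fun m => m ∈ S)).card : ℝ))
    {u s K : ℕ} (hu : 2 ≤ u) (hK : 2 ≤ K) (hKθ : 1 / (K : ℝ) ≤ (1 - θ) / 2) {j0 : ℕ} (hs : s ≤ K ^ (2 * j0))
    (hX0 : X0 ≤ K ^ (2 * j0)) (hlog : Real.log (u + 1) ≤ (K : ℝ) ^ (2 * j0) * ((1 - θ) / 2) * Real.log b)
    (e : ℕ) {ε : ℝ} (hε : 0 < ε) :
    ∀ᵐ α : ℝ, (u : ℝ) / b ^ s ≤ α → α < (u + 1) / b ^ s →
      ∃ J0 : ℕ, ∀ J ≥ J0, ∀ k : ℕ, 8 * (K : ℝ) ^ 2 / ε ^ 2 * Real.log (J + 2) ≤ k →
        (c * Real.log K - ε) * k < ∑ j ∈ range k, blk S b K (2 * (j + J) + e + 1) α := by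
  have hKR : (2 : ℝ) ≤ K := by exact_mod_cast hK
  have hbR : (1 : ℝ) < b := by exact_mod_cast (by omega : 1 < b)
  have hlb : 0 < Real.log b := Real.log_pos hbR
  have h1θ : 0 < (1 - θ) / 2 := lt_of_lt_of_le (by positivity) hKθ
  set η : ℝ := ε ^ 2 / (2 * (K : ℝ) ^ 2) with hη
  have hη0 : 0 < η := by positivity
  set bad : ℕ × ℕ → Set ℝ := fun z => {α : ℝ | ((u : ℝ) / b ^ s ≤ α ∧ α < (u + 1) / b ^ s ∧
    ∑ j ∈ range z.2, blk S b K (2 * (j + z.1) + e + 1) α ≤ (c * Real.log K - ε) * z.2) ∧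
      j0 ≤ z.1 ∧ 8 * (K : ℝ) ^ 2 / ε ^ 2 * Real.log (z.1 + 2) ≤ z.2} with hbad
  have hbd : ∀ z : ℕ × ℕ, volume (bad z) ≤
      ENNReal.ofReal (1 / ((z.1 : ℝ) + 2) ^ 2 * Real.exp (-(η / 2)) ^ z.2) := by
    rintro ⟨J, k⟩
    by_cases hcc : j0 ≤ J ∧ 8 * (K : ℝ) ^ 2 / ε ^ 2 * Real.log ((J : ℝ) + 2) ≤ k
    · have hpw : K ^ (2 * j0) ≤ K ^ (2 * J) := Nat.pow_le_pow_right (by omega) (by omega)
      have hpwr : (K : ℝ) ^ (2 * j0) ≤ (K : ℝ) ^ (2 * J) := by exact_mod_cast hpw
      have hdev := parity_m hb hc hθ0 X0 hS hu hK hKθ (s := s) (j0 := J) (hs.trans hpw) (hX0.trans hpw)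
        (hlog.trans (by gcongr)) e hε k
      refine le_trans (measure_mono ?_) (hdev.trans (ENNReal.ofReal_le_ofReal ?_))
      · rintro t ⟨h1, _⟩
        exact h1
      · have hJ2 : (0 : ℝ) < (J : ℝ) + 2 := by positivity
        have e1 : Real.exp (-(ε ^ 2 / (2 * (K : ℝ) ^ 2)) * k) =
            Real.exp (-(η / 2) * k) * Real.exp (-(η / 2)) ^ k := by
          rw [← Real.exp_nat_mul, ← Real.exp_add, ← hη]
          ring_nf
        rw [e1]
        refine mul_le_mul_of_nonneg_right ?_ (by positivity)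
        have h4 : 2 * Real.log ((J : ℝ) + 2) ≤ η / 2 * k := by
          have h5 := mul_le_mul_of_nonneg_left hcc.2 (by positivity : 0 ≤ η / 2)
          have e2 : η / 2 * (8 * (K : ℝ) ^ 2 / ε ^ 2 * Real.log ((J : ℝ) + 2)) =
              2 * Real.log ((J : ℝ) + 2) := by
            rw [hη]
            field_simp
            norm_num
          linarith
        calc Real.exp (-(η / 2) * k) ≤ Real.exp (-(2 * Real.log ((J : ℝ) + 2))) :=
              Real.exp_le_exp.2 (by linarith)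
          _ = 1 / ((J : ℝ) + 2) ^ 2 := by
            rw [Real.exp_neg, mul_comm, Real.exp_mul, Real.exp_log hJ2, one_div]
            norm_num
    · have : bad (J, k) = ∅ := by
        ext t
        simp only [hbad, Set.mem_ofPred_eq, Set.mem_empty_iff_false, iff_false]
        rintro ⟨_, h2⟩
        exact hcc h2
      rw [this, measure_empty]
      exact zero_le
  have hsum : ∑' z : ℕ × ℕ, volume (bad z) ≠ ⊤ := by
    refine ne_top_of_le_ne_top ?_ (ENNReal.tsum_le_tsum hbd)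
    refine Summable.tsum_ofReal_ne_top ?_
    have h1 : Summable fun J : ℕ => 1 / ((J : ℝ) + 2) ^ 2 := by
      have h2 : Summable fun J : ℕ => 1 / (J : ℝ) ^ 2 := Real.summable_one_div_nat_pow.2 (by norm_num)
      have h3 := (summable_nat_add_iff 2).2 h2
      refine h3.congr fun J => ?_
      push_cast
      rfl
    have h2 : Summable fun k : ℕ => Real.exp (-(η / 2)) ^ k := by
      refine summable_geometric_of_lt_one (Real.exp_pos _).le ?_
      rw [Real.exp_lt_one_iff]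
      linarith
    exact h1.mul_of_nonneg h2 (fun _ => by positivity) (fun _ => by positivity)
  filter_upwards [ae_finite_setOfPred_mem hsum] with t ht h1 h2
  obtain ⟨B, hB⟩ := (ht.image Prod.fst).bddAbove
  refine ⟨max (B + 1) j0, fun J hJ k hk => ?_⟩
  by_contra hcon
  have hmem : (J, k) ∈ {z : ℕ × ℕ | t ∈ bad z} :=
    ⟨⟨h1, h2, not_lt.1 hcon⟩, (le_max_right _ _).trans hJ, hk⟩
  have h3 := hB (Set.mem_image_of_mem Prod.fst hmem)
  have h4 := (le_max_left (B + 1) j0).trans hJ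
  simp only at h3
  omega

open Classical in
/-- the logarithmic density of `T` in all intervals `[X, Y]` with large `X` and `Y ≥ X (log X) ^ C` is
at least `c` -/
def LocDens (T : Set ℕ) (c : ℝ) (C : ℕ) : Prop := ∀ᶠ X : ℕ in atTop, ∀ Y : ℕ,
  (X : ℝ) * Real.log X ^ C ≤ Y →
    c * Real.log ((Y : ℝ) / X) ≤ ∑ n ∈ (Icc X Y).filter (fun n => n ∈ T), 1 / (n : ℝ)

open Classical in
/-- **The local logarithmic density.** -/
theorem loc_dens {b : ℕ} (hb : 2 ≤ b) {S : Set ℕ} {c θ : ℝ} (hc : 0 ≤ c) (hθ0 : 0 ≤ θ) (hθ1 : θ < 1) (X0 : ℕ)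
    (hS : ∀ X Y : ℕ, X0 ≤ Y → (X : ℝ) ^ θ ≤ Y → 2 * Y ≤ X →
      c * Y ≤ (((Ico X (X + Y)).filter (fun m => m ∈ S)).card : ℝ)) {c' : ℝ} (hc0 : 0 ≤ c') (hc' : c' < c) :
    ∃ C : ℕ, ∀ᵐ α : ℝ, 0 < α → LocDens {n : ℕ | ⌊α * (b : ℝ) ^ n⌋₊ ∈ S} c' C := by
  have hb0 : 0 < b := by omega
  have hbR : (1 : ℝ) < b := by exact_mod_cast (by omega : 1 < b)
  have hlb : 0 < Real.log b := Real.log_pos hbR
  have h1θ : 0 < (1 - θ) / 2 := by linarith
  obtain ⟨K, hK, hKθ⟩ : ∃ K : ℕ, 2 ≤ K ∧ 1 / (K : ℝ) ≤ (1 - θ) / 2 := by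
    obtain ⟨k, hk⟩ := exists_nat_one_div_lt h1θ
    refine ⟨k + 2, by omega, le_trans ?_ hk.le⟩
    apply one_div_le_one_div_of_le (by positivity)
    push_cast
    linarith
  have hK0 : 0 < K := by omega
  have hKR : (2 : ℝ) ≤ K := by exact_mod_cast hK
  have hlK : 0 < Real.log K := Real.log_pos (by linarith)
  have hl2 : Real.log 2 ≤ Real.log K := Real.log_le_log (by norm_num) hKR
  have hl2' := Real.log_two_gt_d9
  have hcc : 0 < c - c' := by linarith
  set ε : ℝ := (c - c') * Real.log K / 2 with hε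
  have hε0 : 0 < ε := by positivity
  set A : ℝ := 8 * (K : ℝ) ^ 2 / ε ^ 2 with hA
  have hA0 : 0 < A := by positivity
  obtain ⟨C, hC⟩ := exists_nat_gt (8 * A * Real.log K)
  have hC0 : (0 : ℝ) < C := lt_trans (by positivity) hC
  refine ⟨C, ?_⟩
  -- one interval of amplitudes
  have hone : ∀ z : ℕ × ℕ, ∀ᵐ α : ℝ, 2 ≤ z.1 → (z.1 : ℝ) / b ^ z.2 ≤ α → α < (z.1 + 1) / b ^ z.2 →
      LocDens {n : ℕ | ⌊α * (b : ℝ) ^ n⌋₊ ∈ S} c' C := by
    rintro ⟨u, s⟩
    by_cases hu : 2 ≤ u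
    swap
    · exact Eventually.of_forall fun α h => absurd h hu
    obtain ⟨T, hT⟩ := exists_nat_gt (Real.log (u + 1) / ((1 - θ) / 2 * Real.log b))
    set j0 : ℕ := s + X0 + T with hj0
    have hpow : j0 ≤ K ^ (2 * j0) := by
      calc j0 ≤ 2 * j0 := by omega
        _ ≤ K ^ (2 * j0) := (Nat.lt_pow_self (by omega)).le
    have hlog : Real.log (u + 1) ≤ (K : ℝ) ^ (2 * j0) * ((1 - θ) / 2) * Real.log b := by
      rw [div_lt_iff₀ (by positivity)] at hT
      have h1 : (T : ℝ) ≤ (K : ℝ) ^ (2 * j0) := by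
        have : T ≤ K ^ (2 * j0) := le_trans (by omega) hpow
        exact_mod_cast this
      have h2 : (T : ℝ) * ((1 - θ) / 2 * Real.log b) ≤ (K : ℝ) ^ (2 * j0) * ((1 - θ) / 2 * Real.log b) :=
        mul_le_mul_of_nonneg_right h1 (by positivity)
      linarith
    filter_upwards [runs2 hb hc hθ0 X0 hS hu hK hKθ (s := s) (j0 := j0) (by omega) (by omega) hlog 0 hε0,
      runs2 hb hc hθ0 X0 hS hu hK hKθ (s := s) (j0 := j0) (by omega) (by omega) hlog 1 hε0]
      with α ha hb' _ h1 h2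
    obtain ⟨J1, hJ1⟩ := ha h1 h2
    obtain ⟨J2, hJ2⟩ := hb' h1 h2
    have t1 : Tendsto (fun X : ℕ => Real.log (X : ℝ)) atTop atTop :=
      Real.tendsto_log_atTop.comp tendsto_natCast_atTop_atTop
    have t2 : Tendsto (fun X : ℕ => Real.log (Real.log (X : ℝ))) atTop atTop :=
      Real.tendsto_log_atTop.comp t1
    filter_upwards [t1.eventually_ge_atTop (Real.log K + (J1 + J2 + 1) * (2 * Real.log K)),
      t1.eventually_ge_atTop 3, t2.eventually_ge_atTop (8 * Real.log K / C),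
      t2.eventually_ge_atTop (4 * c' / (c - c') * (4 * Real.log K) / C),
      eventually_ge_atTop K, eventually_ge_atTop 1] with X x1 x2 x3 x3' x4 x5 Y hY
    have hX0 : (0 : ℝ) < X := by exact_mod_cast x5
    have hpw : 1 ≤ Real.log X ^ C := one_le_pow₀ (by linarith)
    have hXY : (X : ℝ) ≤ Y := le_trans (by nlinarith) hY
    have hXYn : X ≤ Y := by exact_mod_cast hXY
    have hY0 : (0 : ℝ) < Y := by linarith
    have hR2 : 2 ≤ K ^ 2 := by nlinarith
    obtain ⟨a1, a2, a3, a4⟩ := scale (D := K) (R := K ^ 2) (by omega) hR2 x4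
    obtain ⟨b1, b2, b3, b4⟩ := scale (D := K) (R := K ^ 2) (by omega) hR2 (x4.trans hXYn)
    have hlR : Real.log ((K ^ 2 : ℕ) : ℝ) = 2 * Real.log K := by
      push_cast
      rw [Real.log_pow]
      push_cast
      ring
    rw [hlR] at a3 a4 b3 b4
    set I := Nat.log (K ^ 2) (X / K) with hI
    set M := Nat.log (K ^ 2) (Y / K) with hM
    clear_value I M
    set lam := Real.log ((Y : ℝ) / X) with hlam
    have hlam1 : lam = Real.log Y - Real.log X := Real.log_div hY0.ne' hX0.ne'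
    have hlam2 : C * Real.log (Real.log X) ≤ lam := by
      have h5 : Real.log ((X : ℝ) * Real.log X ^ C) ≤ Real.log Y :=
        Real.log_le_log (by positivity) hY
      rw [Real.log_mul hX0.ne' (by positivity), Real.log_pow] at h5
      linarith
    have hlam3 : 8 * Real.log K ≤ lam := by
      rw [div_le_iff₀ hC0] at x3
      linarith
    have hlam4 : 4 * c' / (c - c') * (4 * Real.log K) ≤ lam := by
      rw [div_le_iff₀ hC0] at x3'
      linarith
    have hk1 : lam ≤ ((M : ℝ) - I + 1) * (2 * Real.log K) := by linarith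
    have hk2 : lam / (4 * Real.log K) ≤ (M : ℝ) - I - 1 := by
      rw [div_le_iff₀ (by positivity)]
      nlinarith
    have hk3 : (I : ℝ) + 1 ≤ M := by
      have : 0 < lam / (4 * Real.log K) := by
        have : 0 < lam := by linarith
        positivity
      linarith
    have hk4 : I + 1 ≤ M := by exact_mod_cast hk3
    obtain ⟨k, rfl⟩ : ∃ k, M = k + (I + 1) := ⟨M - (I + 1), by omega⟩
    have hk5 : lam / (4 * Real.log K) ≤ k := by
      push_cast at hk2
      linarith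
    have hk6 : lam ≤ ((k : ℝ) + 2) * (2 * Real.log K) := by
      push_cast at hk1
      linarith
    have hIX : (I : ℝ) ≤ Real.log X := by
      have : (I : ℝ) * 1 ≤ I * (2 * Real.log K) :=
        mul_le_mul_of_nonneg_left (by linarith) (Nat.cast_nonneg I)
      linarith
    have hJ2' : ((I + 1 : ℕ) : ℝ) + 2 ≤ Real.log X ^ 2 := by
      push_cast
      nlinarith
    have hlog' : Real.log (((I + 1 : ℕ) : ℝ) + 2) ≤ 2 * Real.log (Real.log X) := by
      calc Real.log (((I + 1 : ℕ) : ℝ) + 2) ≤ Real.log (Real.log X ^ 2) :=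
            Real.log_le_log (by positivity) hJ2'
        _ = _ := by rw [Real.log_pow]; push_cast; ring
    have hll : 0 ≤ Real.log (Real.log X) := Real.log_nonneg (by linarith)
    have hcond : A * Real.log (((I + 1 : ℕ) : ℝ) + 2) ≤ k := by
      refine le_trans ?_ hk5
      rw [le_div_iff₀ (by positivity)]
      have h6 : A * Real.log (((I + 1 : ℕ) : ℝ) + 2) ≤ A * (2 * Real.log (Real.log X)) :=
        mul_le_mul_of_nonneg_left hlog' hA0.le
      have h8 : 8 * A * Real.log K * Real.log (Real.log X) ≤ C * Real.log (Real.log X) :=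
        mul_le_mul_of_nonneg_right hC.le hll
      have h9 := mul_le_mul_of_nonneg_right h6 (by positivity : 0 ≤ 4 * Real.log K)
      nlinarith
    have hJ0' : J1 + J2 ≤ I + 1 := by
      by_contra hcon
      push Not at hcon
      have h10 : ((I + 1 : ℕ) : ℝ) + 1 ≤ ((J1 + J2 : ℕ) : ℝ) := by exact_mod_cast hcon
      push_cast at h10
      have : ((I : ℝ) + 1) * (2 * Real.log K) < (J1 + J2 + 1) * (2 * Real.log K) :=
        mul_lt_mul_of_pos_right (by linarith) (by positivity)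
      linarith
    have g1 := hJ1 (I + 1) (by omega) k hcond
    have g2 := hJ2 (I + 1) (by omega) k hcond
    have h3 := blk_sum S b (K := K) (by omega) (I + 1) k α
    rw [sum_add_distrib] at h3
    simp only [add_zero] at g1
    have hfin : c' * lam ≤ 2 * ((c * Real.log K - ε) * k) := by
      have h11 : 4 * c' / (c - c') ≤ k := by
        refine le_trans ?_ hk5
        rw [le_div_iff₀ (by positivity)]
        exact hlam4
      rw [div_le_iff₀ hcc] at h11
      have h12 : c' * lam ≤ c' * (((k : ℝ) + 2) * (2 * Real.log K)) :=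
        mul_le_mul_of_nonneg_left hk6 hc0
      have h13 : 4 * c' * Real.log K ≤ k * (c - c') * Real.log K :=
        mul_le_mul_of_nonneg_right h11 hlK.le
      rw [hε]
      nlinarith
    have key : c' * lam ≤ ∑ n ∈ Ico (K ^ (2 * (I + 1) + 1)) (K ^ (2 * (k + (I + 1)) + 1)),
        (if ⌊α * (b : ℝ) ^ n⌋₊ ∈ S then 1 / (n : ℝ) else 0) := by
      rw [← h3]
      have g2' : (c * Real.log K - ε) * k < ∑ j ∈ range k, blk S b K (2 * (j + (I + 1)) + 2) α := g2
      linarith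
    refine key.trans ?_
    rw [← Finset.sum_filter]
    apply Finset.sum_le_sum_of_subset_of_nonneg
    · intro n hn
      rw [mem_filter, mem_Ico] at hn
      rw [mem_filter, mem_Icc]
      have e1 : K * (K ^ 2) ^ (I + 1) = K ^ (2 * (I + 1) + 1) := by rw [← pow_mul, pow_succ]; ring
      have e2 : K * (K ^ 2) ^ (k + (I + 1)) = K ^ (2 * (k + (I + 1)) + 1) := by
        rw [← pow_mul, pow_succ]; ring
      rw [e1] at a2
      rw [e2] at b1
      exact ⟨⟨by omega, by omega⟩, hn.2⟩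
    · intro n _ _
      positivity
  filter_upwards [ae_all_iff.2 hone] with α hα hα0
  obtain ⟨s, hs⟩ := pow_unbounded_of_one_lt (2 / α) hbR
  rw [div_lt_iff₀ hα0] at hs
  have hP : (0 : ℝ) < (b : ℝ) ^ s := by positivity
  exact hα (⌊α * (b : ℝ) ^ s⌋₊, s) (Nat.le_floor (by push_cast; linarith))
    (by
      rw [div_le_iff₀ hP]
      exact Nat.floor_le (by positivity))
    (by
      rw [lt_div_iff₀ hP]
      exact Nat.lt_floor_add_one _)

lemma LocDens.anti {T : Set ℕ} {c c' : ℝ} {C : ℕ} (h : LocDens T c C) (hc : c' ≤ c) :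
    LocDens T c' C := by
  have t1 : Tendsto (fun X : ℕ => Real.log (X : ℝ)) atTop atTop :=
    Real.tendsto_log_atTop.comp tendsto_natCast_atTop_atTop
  filter_upwards [h, t1.eventually_ge_atTop 1, eventually_ge_atTop 1] with X hX x1 x2 Y hY
  refine le_trans (mul_le_mul_of_nonneg_right hc ?_) (hX Y hY)
  have hX0 : (0 : ℝ) < X := by exact_mod_cast x2
  have hpw : 1 ≤ Real.log X ^ C := one_le_pow₀ x1
  have hXY : (X : ℝ) ≤ Y := le_trans (by nlinarith) hY
  refine Real.log_nonneg ?_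
  rwa [one_le_div hX0]

open Classical in
lemma LocDens.mono {T T' : Set ℕ} {c : ℝ} {C : ℕ} (h : LocDens T c C)
    (hT : ∀ᶠ n : ℕ in atTop, n ∈ T → n ∈ T') : LocDens T' c C := by
  obtain ⟨n0, hn0⟩ := eventually_atTop.1 hT
  filter_upwards [h, eventually_ge_atTop n0] with X hX hXn Y hY
  refine (hX Y hY).trans ?_
  apply Finset.sum_le_sum_of_subset_of_nonneg
  · intro n hn
    rw [mem_filter, mem_Icc] at hn ⊢
    exact ⟨hn.1, hn0 n (by omega) hn.2⟩
  · intro n _ _
    positivity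

end Pool.Agent.V1193.PL
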