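import Pool.Agent.V60.LD.Dens

/-! The number of good blocks of digits in all runs of blocks. -/

set_option autoImplicit false

open Finset Filter Topology MeasureTheory

namespace Pool.Agent.V1193.PL

open Pool.Agent.V60.LD

open Classical in
/-- the blocks of one parity (copied from `V60.LD.Dens`, with the measure in place of the a.e. statement) -/
lemma parity_m {b : ℕ} (hb : 2 ≤ b) {S : Set ℕ} {c θ : ℝ} (hc : 0 ≤ c) (hθ0 : 0 ≤ θ) (X0 : ℕ)
    (hS : ∀ X Y : ℕ, X0 ≤ Y → (X : ℝ) ^ θ ≤ Y → 2 * Y ≤ X →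
      c * Y ≤ (((Ico X (X + Y)).filter (fun m => m ∈ S)).card : ℝ))
    {u s K : ℕ} (hu : 2 ≤ u) (hK : 2 ≤ K) (hKθ : 1 / (K : ℝ) ≤ (1 - θ) / 2) {j0 : ℕ} (hs : s ≤ K ^ (2 * j0))
    (hX0 : X0 ≤ K ^ (2 * j0)) (hlog : Real.log (u + 1) ≤ (K : ℝ) ^ (2 * j0) * ((1 - θ) / 2) * Real.log b)
    (e : ℕ) {ε : ℝ} (hε : 0 < ε) (k : ℕ) :
    volume {α : ℝ | (u : ℝ) / b ^ s ≤ α ∧ α < (u + 1) / b ^ s ∧
      ∑ j ∈ range k, blk S b K (2 * (j + j0) + e + 1) α ≤ (c * Real.log K - ε) * k} ≤
      ENNReal.ofReal (Real.exp (-(ε ^ 2 / (2 * (K : ℝ) ^ 2)) * k)) := by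
  have hb0 : 0 < b := by omega
  have hK0 : 0 < K := by omega
  have hbR : (1 : ℝ) < b := by exact_mod_cast (by omega : 1 < b)
  have hKR : (0 : ℝ) < K := by exact_mod_cast hK0
  have hlb : 0 < Real.log b := Real.log_pos hbR
  have hmono : Monotone (fun j : ℕ => K ^ (2 * (j + j0) + e)) := fun j j' hjj =>
    Nat.pow_le_pow_right hK0 (by omega)
  have key := dev_measure (u := u) (s := s) hb0 (q := c * Real.log K) (R := K) (ε := ε) hKR hε
    (fun j : ℕ => K ^ (2 * (j + j0) + e)) hmono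
    (hs.trans (Nat.pow_le_pow_right hK0 (by omega)))
    (fun j a => ∑ n ∈ Ico (K ^ (2 * (j + j0) + e + 1)) (K ^ (2 * (j + j0) + e + 2)),
      if a / b ^ (K ^ (2 * (j + j0) + e + 2) - n) ∈ S then 1 / (n : ℝ) else 0)
    (fun j a => Finset.sum_nonneg fun n _ => by split_ifs <;> positivity)
    (fun j a => ?_) (fun j a' h1 h2 => ?_) k
  · refine le_trans (measure_mono ?_) key
    rintro α ⟨h1, h2, h3⟩
    refine ⟨h1, h2, le_trans (le_of_eq ?_) h3⟩
    symm
    refine Finset.sum_congr rfl fun j _ => ?_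
    unfold blk
    rw [show 2 * (j + 1 + j0) + e = 2 * (j + j0) + e + 2 by ring]
    refine Finset.sum_congr rfl fun n hn => ?_
    rw [mem_Ico] at hn
    rw [floor_level hb0 hn.2.le]
  · have h3 : ∀ n ∈ Ico (K ^ (2 * (j + j0) + e + 1)) (K ^ (2 * (j + j0) + e + 2)),
        (if a / b ^ (K ^ (2 * (j + j0) + e + 2) - n) ∈ S then 1 / (n : ℝ) else 0) ≤ 1 / (n : ℝ) := by
      intro n _
      split_ifs
      · exact le_rfl
      · positivity
    refine (Finset.sum_le_sum h3).trans ?_
    rw [show K ^ (2 * (j + j0) + e + 2) = K * K ^ (2 * (j + j0) + e + 1) by ring]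
    exact sum_inv_le (Nat.pow_pos hK0)
  · set ℓ := K ^ (2 * (j + j0) + e) with hℓ
    have hℓ0 : 0 < ℓ := Nat.pow_pos hK0
    have en0 : K ^ (2 * (j + j0) + e + 1) = K * ℓ := by rw [hℓ]; ring
    have eL : K ^ (2 * (j + j0) + e + 2) = K * (K * ℓ) := by rw [hℓ]; ring
    have eL' : K ^ (2 * (j + 1 + j0) + e) = K * (K * ℓ) := by rw [hℓ]; ring
    rw [en0, eL, eL']
    have hℓK : ℓ ≤ K * ℓ := Nat.le_mul_of_pos_left ℓ hK0
    have hj0 : K ^ (2 * j0) ≤ ℓ := Nat.pow_le_pow_right hK0 (by omega)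
    refine le_trans ?_ (block_sum (c := c) hb0 hℓK fun n hn => ?_)
    · have h3 : Real.log K ≤ ∑ n ∈ Ico (K * ℓ) (K * (K * ℓ)), 1 / (n : ℝ) := by
        have h4 := sum_inv_ge (n0 := K * ℓ) (by positivity) (K * (K * ℓ) - K * ℓ)
        have e5 : K * ℓ + (K * (K * ℓ) - K * ℓ) = K * (K * ℓ) := by
          have : K * ℓ ≤ K * (K * ℓ) := Nat.le_mul_of_pos_left _ hK0
          omega
        rw [e5] at h4
        refine le_trans (le_of_eq ?_) h4
        have hKl : (0 : ℝ) < ((K * ℓ : ℕ) : ℝ) := by exact_mod_cast (by positivity : 0 < K * ℓ)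
        rw [← Real.log_div (by positivity) hKl.ne']
        congr 1
        push_cast
        have : (0 : ℝ) < ℓ := by exact_mod_cast hℓ0
        field_simp
      have h5 : (0 : ℝ) ≤ (b : ℝ) ^ (K * (K * ℓ) - ℓ) := by positivity
      gcongr
    · rw [mem_Ico] at hn
      -- the interval of integers at the level `n`
      have hY2 : 2 * b ^ (n - ℓ) ≤ a' * b ^ (n - ℓ) := by
        apply Nat.mul_le_mul_right
        exact le_trans hu (le_trans (Nat.le_mul_of_pos_right u (Nat.pow_pos hb0)) h1)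
      have hnℓ : ℓ ≤ n - ℓ := by
        have : 2 * ℓ ≤ K * ℓ := Nat.mul_le_mul_right ℓ hK
        omega
      have hYX0 : X0 ≤ b ^ (n - ℓ) := by
        calc X0 ≤ ℓ := hX0.trans hj0
          _ ≤ n - ℓ := hnℓ
          _ ≤ b ^ (n - ℓ) := (Nat.lt_pow_self (by omega)).le
      have h6 := hS (a' * b ^ (n - ℓ)) (b ^ (n - ℓ)) hYX0 ?_ hY2
      · push_cast at h6
        refine h6.trans (le_of_eq ?_)
        rw [add_mul, one_mul]
      · -- the size
        have hnR : (0 : ℝ) < n := by
          have : 0 < n := by omega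
          exact_mod_cast this
        have hX : (0 : ℝ) < ((a' * b ^ (n - ℓ) : ℕ) : ℝ) := by
          have h7 : 0 < b ^ (n - ℓ) := Nat.pow_pos hb0
          have : 0 < a' * b ^ (n - ℓ) := by omega
          exact_mod_cast this
        have hXle : ((a' * b ^ (n - ℓ) : ℕ) : ℝ) ≤ (u + 1) * (b : ℝ) ^ n := by
          have h7 : a' * b ^ (n - ℓ) ≤ (u + 1) * b ^ n := by
            calc a' * b ^ (n - ℓ) ≤ ((u + 1) * b ^ (ℓ - s)) * b ^ (n - ℓ) := Nat.mul_le_mul_right _ h2.le
              _ = (u + 1) * b ^ ((ℓ - s) + (n - ℓ)) := by rw [pow_add]; ring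
              _ ≤ (u + 1) * b ^ n := by
                  apply Nat.mul_le_mul_left
                  exact Nat.pow_le_pow_right hb0 (by omega)
          exact_mod_cast h7
        have hlogX : Real.log ((a' * b ^ (n - ℓ) : ℕ) : ℝ) ≤ Real.log (u + 1) + n * Real.log b := by
          refine (Real.log_le_log hX hXle).trans (le_of_eq ?_)
          rw [Real.log_mul (by positivity) (by positivity), Real.log_pow]
        have hKn : (K : ℝ) * ℓ ≤ n := by exact_mod_cast hn.1
        have hℓn : (ℓ : ℝ) ≤ n * ((1 - θ) / 2) := by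
          have h8 : (ℓ : ℝ) ≤ n * (1 / K) := by
            rw [mul_one_div, le_div_iff₀ hKR]
            linarith
          exact h8.trans (mul_le_mul_of_nonneg_left hKθ hnR.le)
        have h1θ : 0 < (1 - θ) / 2 := lt_of_lt_of_le (by positivity) hKθ
        have hln : (K : ℝ) ^ (2 * j0) ≤ n := by
          have : K ^ (2 * j0) ≤ n := by omega
          exact_mod_cast this
        have hlog2 : Real.log (u + 1) ≤ n * ((1 - θ) / 2) * Real.log b := by
          refine hlog.trans ?_
          gcongr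
        have hfin : θ * Real.log ((a' * b ^ (n - ℓ) : ℕ) : ℝ) ≤ ((n : ℝ) - ℓ) * Real.log b := by
          have h9 : θ * Real.log ((a' * b ^ (n - ℓ) : ℕ) : ℝ) ≤ θ * (Real.log (u + 1) + n * Real.log b) :=
            mul_le_mul_of_nonneg_left hlogX hθ0
          have h10 : θ * Real.log (u + 1) ≤ Real.log (u + 1) := by
            have h11 : 0 ≤ Real.log ((u : ℝ) + 1) := Real.log_nonneg (by
              have : (0 : ℝ) ≤ u := Nat.cast_nonneg u
              linarith)
            have : θ ≤ 1 := by linarith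
            nlinarith
          have h12 : (ℓ : ℝ) * Real.log b ≤ n * ((1 - θ) / 2) * Real.log b :=
            mul_le_mul_of_nonneg_right hℓn hlb.le
          nlinarith
        rw [← Real.log_le_log_iff (by positivity) (by positivity), Real.log_rpow hX]
        push_cast
        rw [Real.log_pow, Nat.cast_sub (by omega)]
        push_cast at hfin
        exact hfin


end Pool.Agent.V1193.PL
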